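import Pool.Agent.helper71.CL.Spec

/-!
# Project cl: NCN: normal directions of an intersection of unit balls
-/

set_option autoImplicit false

open MeasureTheory Set Filter Topology
open scoped ENNReal
open Pool.Agent.helper81.CW

noncomputable section

namespace Pool.Agent.CL

/-- the ray in the direction of `u`. -/
def NCN_ray {n : ℕ} (u : E n) : Set (E n) := {x | inner ℝ u x • u = x ∧ 0 ≤ inner ℝ u x}

theorem NCN_ray_closed {n : ℕ} (u : E n) : IsClosed (NCN_ray u) := by
  have h1 : IsClosed {x : E n | inner ℝ u x • u = x} :=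
    isClosed_eq (by fun_prop) continuous_id
  have h2 : IsClosed {x : E n | 0 ≤ inner ℝ u x} :=
    isClosed_le continuous_const (by fun_prop)
  exact h1.inter h2

theorem NCN_ray_convex {n : ℕ} (u : E n) : Convex ℝ (NCN_ray u) := by
  rintro x ⟨hx1, hx2⟩ y ⟨hy1, hy2⟩ a b ha hb hab
  refine ⟨?_, ?_⟩
  · rw [inner_add_right, inner_smul_right, inner_smul_right, add_smul, mul_smul, mul_smul, hx1, hy1]
  · rw [inner_add_right, inner_smul_right, inner_smul_right]
    positivity

theorem NCN_mem_ray {n : ℕ} (u : E n) (hu : ‖u‖ = 1) (t : ℝ) (ht : 0 ≤ t) : t • u ∈ NCN_ray u := by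
  have h : inner ℝ u (t • u) = t := by
    rw [inner_smul_right, real_inner_self_eq_norm_sq, hu]
    ring
  exact ⟨by rw [h], by rw [h]; exact ht⟩

/-- Case 1. -/
theorem NCN_one {n : ℕ} (K : Set (E n)) (u y : E n) (hu : ‖u‖ = 1)
    (hmax : ∀ w : E n, (∀ k ∈ K, ‖w - k‖ ≤ 1) → inner ℝ u w ≤ inner ℝ u y)
    (A : Set (E n)) (hA : ∀ a ∈ A, ∃ k ∈ K, a = y - k ∧ ‖a‖ = 1) (s : E n)
    (hs : s ∈ closure (convexHull ℝ A)) (hr : s ∈ NCN_ray u) :
    ∀ w : E n, (∀ k ∈ K, ‖w - k‖ ≤ 1) → ‖y - u - w‖ ≤ 1 := by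
  intro w hw
  obtain ⟨hr1, hr2⟩ := hr
  set t : ℝ := inner ℝ u s with ht
  have hball : closure (convexHull ℝ A) ⊆ Metric.closedBall (0 : E n) 1 := by
    apply closure_minimal _ Metric.isClosed_closedBall
    apply convexHull_min _ (convex_closedBall _ _)
    intro a ha
    obtain ⟨k, -, -, h⟩ := hA a ha
    simp [h]
  have ht1 : t ≤ 1 := by
    have h1 := hball hs
    rw [mem_closedBall_zero_iff] at h1
    have h2 : t ≤ ‖u‖ * ‖s‖ := real_inner_le_norm u s
    rw [hu] at h2
    linarith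
  set X : E n := y - w with hX
  have hhalf : closure (convexHull ℝ A) ⊆ {s | ‖X‖ ^ 2 / 2 ≤ inner ℝ X s} := by
    apply closure_minimal
    · apply convexHull_min
      · intro a ha
        obtain ⟨k, hk, rfl, hn⟩ := hA a ha
        have h1 : ‖X - (y - k)‖ ≤ 1 := by
          have : X - (y - k) = -(w - k) := by rw [hX]; abel
          rw [this, norm_neg]
          exact hw k hk
        have h2 := norm_sub_sq_real X (y - k)
        have h3 : ‖X - (y - k)‖ ^ 2 ≤ 1 := by
          have := norm_nonneg (X - (y - k))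
          nlinarith
        rw [hn] at h2
        show ‖X‖ ^ 2 / 2 ≤ inner ℝ X (y - k)
        linarith
      · exact convex_halfSpace_ge (innerSL ℝ X).isLinear _
    · exact isClosed_le continuous_const (by fun_prop)
  have h1 : ‖X‖ ^ 2 / 2 ≤ inner ℝ X s := hhalf hs
  rw [← hr1, inner_smul_right] at h1
  have h2 : 0 ≤ inner ℝ X u := by
    have := hmax w hw
    rw [hX, real_inner_comm, inner_sub_right]
    linarith
  have h3 : t * inner ℝ X u ≤ inner ℝ X u := by nlinarith
  have h4 := norm_sub_sq_real X u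
  rw [hu] at h4
  have h5 : y - u - w = X - u := by rw [hX]; abel
  rw [h5]
  have h6 : ‖X - u‖ ^ 2 ≤ 1 := by linarith
  have := norm_nonneg (X - u)
  nlinarith

/-- Case 2: a direction `e` which points into the interior of all active constraints. -/
theorem NCN_two {n : ℕ} (K : Set (E n)) (hK : IsCompact K) (u y e : E n) (c : ℝ) (hc : 0 < c)
    (hy : ∀ k ∈ K, ‖y - k‖ ≤ 1)
    (he : ∀ k ∈ K, ‖y - k‖ = 1 → inner ℝ e (y - k) < -c) :
    ∃ ε : ℝ, 0 < ε ∧ ∀ k ∈ K, ‖y + ε • e - k‖ ≤ 1 := by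
  set K₁ : Set (E n) := K ∩ {k | -c ≤ inner ℝ e (y - k)} with hK₁
  have hcl : IsClosed {k : E n | -c ≤ inner ℝ e (y - k)} :=
    isClosed_le continuous_const (by fun_prop)
  have hK₁c : IsCompact K₁ := hK.inter_right hcl
  obtain ⟨m, hm1, hm⟩ : ∃ m : ℝ, m < 1 ∧ ∀ k ∈ K₁, ‖y - k‖ ≤ m := by
    rcases K₁.eq_empty_or_nonempty with h | h
    · exact ⟨0, one_pos, by rw [h]; simp⟩
    · obtain ⟨k₀, hk₀, hmax⟩ := hK₁c.exists_isMaxOn h
        (f := fun k => ‖y - k‖) (by fun_prop)
      refine ⟨‖y - k₀‖, ?_, fun k hk => hmax hk⟩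
      rcases lt_or_eq_of_le (hy k₀ hk₀.1) with h1 | h1
      · exact h1
      · have := he k₀ hk₀.1 h1
        have h2 : -c ≤ inner ℝ e (y - k₀) := hk₀.2
        linarith
  set ε : ℝ := min ((1 - m) / (‖e‖ + 1)) (2 * c / (‖e‖ ^ 2 + 1)) with hε
  have he0 := norm_nonneg e
  have hε0 : 0 < ε := by
    apply lt_min
    · apply div_pos <;> linarith
    · positivity
  have hε1 : ε * (‖e‖ + 1) ≤ 1 - m := by
    have := min_le_left ((1 - m) / (‖e‖ + 1)) (2 * c / (‖e‖ ^ 2 + 1))
    rw [← hε, le_div_iff₀ (by positivity)] at this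
    exact this
  have hε2 : ε * (‖e‖ ^ 2 + 1) ≤ 2 * c := by
    have := min_le_right ((1 - m) / (‖e‖ + 1)) (2 * c / (‖e‖ ^ 2 + 1))
    rw [← hε, le_div_iff₀ (by positivity)] at this
    exact this
  refine ⟨ε, hε0, fun k hk => ?_⟩
  have hre : y + ε • e - k = (y - k) + ε • e := by abel
  rw [hre]
  by_cases hk1 : k ∈ K₁
  · have h1 := norm_add_le (y - k) (ε • e)
    rw [norm_smul, Real.norm_of_nonneg hε0.le] at h1
    have h2 := hm k hk1
    nlinarith
  · have h2 : inner ℝ e (y - k) < -c := by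
      by_contra h
      exact hk1 ⟨hk, not_lt.mp h⟩
    have h3 := norm_add_sq_real (y - k) (ε • e)
    rw [inner_smul_right, norm_smul, Real.norm_of_nonneg hε0.le, real_inner_comm] at h3
    have h4 := hy k hk
    have h5 := norm_nonneg (y - k)
    have h6 : ‖y - k‖ ^ 2 ≤ 1 := by nlinarith
    have h7 : ε * inner ℝ e (y - k) ≤ ε * (-c) := by
      apply mul_le_mul_of_nonneg_left h2.le hε0.le
    have h8 : (ε * ‖e‖) ^ 2 ≤ ε * (2 * c) := by
      have : (ε * ‖e‖) ^ 2 = ε * (ε * ‖e‖ ^ 2) := by ring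
      rw [this]
      apply mul_le_mul_of_nonneg_left _ hε0.le
      nlinarith
    have h9 : ‖y - k + ε • e‖ ^ 2 ≤ 1 := by nlinarith
    have := norm_nonneg (y - k + ε • e)
    nlinarith

theorem NCN : NCN_stmt := by
  intro n K u y hK hu hy hmax
  set A : Set (E n) := {a | ∃ k ∈ K, a = y - k ∧ ‖a‖ = 1} with hA
  set S : Set (E n) := closure (convexHull ℝ A) with hS
  have hball : S ⊆ Metric.closedBall (0 : E n) 1 := by
    apply closure_minimal _ Metric.isClosed_closedBall
    apply convexHull_min _ (convex_closedBall _ _)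
    rintro a ⟨k, -, -, h⟩
    simp [h]
  have hScomp : IsCompact S :=
    Metric.isCompact_of_isClosed_isBounded isClosed_closure
      (Metric.isBounded_closedBall.subset hball)
  have hSconv : Convex ℝ S := (convex_convexHull ℝ A).closure
  by_cases hd : Disjoint S (NCN_ray u)
  · exfalso
    obtain ⟨f, c₁, v, hf1, hf2, hf3⟩ := geometric_hahn_banach_compact_closed hSconv hScomp
      (NCN_ray_convex u) (NCN_ray_closed u) hd
    have hv0 : v < 0 := by
      have := hf3 _ (NCN_mem_ray u hu 0 le_rfl)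
      simpa using this
    have hfu : 0 ≤ f u := by
      by_contra h
      push Not at h
      have ht : 0 ≤ v / f u := div_nonneg_of_nonpos hv0.le h.le
      have := hf3 _ (NCN_mem_ray u hu (v / f u) ht)
      rw [map_smul, smul_eq_mul, div_mul_cancel₀ _ h.ne] at this
      exact lt_irrefl _ this
    set e₀ : E n := (InnerProductSpace.toDual ℝ (E n)).symm f with he₀
    have hfe : ∀ x, inner ℝ e₀ x = f x := fun x =>
      InnerProductSpace.toDual_symm_apply
    set e : E n := e₀ + (-v / 2) • u with he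
    have hein : ∀ x, inner ℝ e x = f x + (-v / 2) * inner ℝ u x := by
      intro x
      rw [he, inner_add_left, hfe, real_inner_smul_left]
    obtain ⟨ε, hε, hW⟩ := NCN_two K hK u y e (-v / 2) (by linarith) hy (by
      intro k hk hk1
      have h1 : f (y - k) < c₁ := by
        apply hf1
        apply subset_closure
        apply subset_convexHull
        exact ⟨k, hk, rfl, hk1⟩
      have h2 : inner ℝ u (y - k) ≤ ‖u‖ * ‖y - k‖ := real_inner_le_norm _ _
      rw [hu, hk1] at h2
      rw [hein]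
      nlinarith)
    have h1 := hmax _ hW
    rw [inner_add_right, inner_smul_right, real_inner_comm, real_inner_comm e u, hein u,
      real_inner_self_eq_norm_sq, hu] at h1
    have h2 : 0 < f u + -v / 2 * 1 ^ 2 := by linarith
    have h3 : 0 < ε * (f u + -v / 2 * 1 ^ 2) := mul_pos hε h2
    rw [real_inner_comm] at h1
    linarith
  · rw [Set.not_disjoint_iff] at hd
    obtain ⟨s, hs1, hs2⟩ := hd
    exact NCN_one K u y hu hmax A (fun a ha => ha) s hs1 hs2

end Pool.Agent.CL
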